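import Pool.Agent.Y192.OG.StC

/-! The least saturated group making an ideal homogeneous (job 1282 of helper192). -/

set_option autoImplicit false

namespace Pool.Agent.Y333.OG

open Pool.Agent.Y192.OG

theorem comp_top {N : ℕ} (q : (Fin N → ℤ) ⧸ (⊤ : Submodule ℤ (Fin N → ℤ)))
    (g : AddMonoidAlgebra ℂ (Fin N → ℤ)) : comp ⊤ q g = g := by
  classical
  unfold comp
  refine (congrArg AddMonoidAlgebra.ofCoeff ?_).trans (AddMonoidAlgebra.ofCoeff_coeff g)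
  ext m
  rw [Finsupp.filter_apply, if_pos]
  exact Subsingleton.elim _ _

theorem comp_inf {N : ℕ} (G1 G2 : Submodule ℤ (Fin N → ℤ)) (t : Fin N → ℤ)
    (g : AddMonoidAlgebra ℂ (Fin N → ℤ)) :
    comp (G1 ⊓ G2) ((G1 ⊓ G2).mkQ t) g = comp G1 (G1.mkQ t) (comp G2 (G2.mkQ t) g) := by
  classical
  unfold comp
  congr 1
  ext m
  show (g.coeff.filter fun m => (G1 ⊓ G2).mkQ m = (G1 ⊓ G2).mkQ t) m =
    ((g.coeff.filter fun m => G2.mkQ m = G2.mkQ t).filter fun m => G1.mkQ m = G1.mkQ t) m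
  rw [Finsupp.filter_apply, Finsupp.filter_apply, Finsupp.filter_apply]
  simp only [Submodule.mkQ_apply, Submodule.Quotient.eq, Submodule.mem_inf]
  by_cases h1 : m - t ∈ G1 <;> by_cases h2 : m - t ∈ G2 <;> simp [h1, h2]

theorem least0 (N : ℕ) (I : Ideal (AddMonoidAlgebra ℂ (Fin N → ℤ))) :
    ∃ Γ₀ : Submodule ℤ (Fin N → ℤ), Sat Γ₀ ∧ (∀ g ∈ I, ∀ q, comp Γ₀ q g ∈ I) ∧
      ∀ Γ, Sat Γ → (∀ g ∈ I, ∀ q, comp Γ q g ∈ I) → Γ₀ ≤ Γ := by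
  classical
  set S : Set (Submodule ℤ (Fin N → ℤ)) := {Γ | Sat Γ ∧ ∀ g ∈ I, ∀ q, comp Γ q g ∈ I} with hS
  have htop : (⊤ : Submodule ℤ (Fin N → ℤ)) ∈ S :=
    ⟨fun n m _ _ => Submodule.mem_top, fun g hg q => by rw [comp_top]; exact hg⟩
  have hinf : ∀ G1 ∈ S, ∀ G2 ∈ S, G1 ⊓ G2 ∈ S := by
    rintro G1 ⟨h1, h2⟩ G2 ⟨h3, h4⟩
    refine ⟨fun n m hn hm => ⟨h1 n m hn hm.1, h3 n m hn hm.2⟩, fun g hg q => ?_⟩
    obtain ⟨t, rfl⟩ := (G1 ⊓ G2).mkQ_surjective q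
    rw [comp_inf]
    exact h2 _ (h4 _ hg _) _
  obtain ⟨Γ₀, hΓ₀, hmin⟩ : ∃ Γ₀ ∈ S, ∀ Γ ∈ S, Module.finrank ℤ Γ₀ ≤ Module.finrank ℤ Γ := by
    have h1 : (Set.image (fun Γ : Submodule ℤ (Fin N → ℤ) => Module.finrank ℤ Γ) S).Nonempty :=
      ⟨_, ⊤, htop, rfl⟩
    obtain ⟨Γ₀, h2, h3⟩ := Nat.sInf_mem h1
    refine ⟨Γ₀, h2, fun Γ hΓ => ?_⟩
    have h4 := Nat.sInf_le (Set.mem_image_of_mem (fun Γ : Submodule ℤ (Fin N → ℤ) => Module.finrank ℤ Γ) hΓ)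
    simp only at h3 h4
    omega
  refine ⟨Γ₀, hΓ₀.1, hΓ₀.2, fun Γ h1 h2 => ?_⟩
  have hΓ : Γ₀ ⊓ Γ ∈ S := hinf _ hΓ₀ _ ⟨h1, h2⟩
  have h3 := hmin _ hΓ
  -- the quotient is torsion
  have h4 := Submodule.finrank_quotient_add_finrank ((Γ₀ ⊓ Γ).submoduleOf Γ₀)
  have h5 : Module.finrank ℤ ((Γ₀ ⊓ Γ).submoduleOf Γ₀) = Module.finrank ℤ ↥(Γ₀ ⊓ Γ) :=
    (Submodule.submoduleOfEquivOfLe inf_le_left).finrank_eq
  have h6 : Module.finrank ℤ (Γ₀ ⧸ (Γ₀ ⊓ Γ).submoduleOf Γ₀) = 0 := by omega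
  rw [Module.finrank_eq_zero_iff_isTorsion] at h6
  intro m hm
  obtain ⟨k, hk⟩ := @h6 (Submodule.Quotient.mk ⟨m, hm⟩)
  have hk0 : (k : ℤ) ≠ 0 := nonZeroDivisors.ne_zero k.2
  have h7 : (k : ℤ) • (⟨m, hm⟩ : Γ₀) ∈ (Γ₀ ⊓ Γ).submoduleOf Γ₀ := by
    rw [← Submodule.Quotient.mk_eq_zero]
    exact hk
  exact h1 k m hk0 h7.2

end Pool.Agent.Y333.OG
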