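import Pool.Agent.Y192.OG.StE
import Pool.Agent.Y333.OG.Least0

/-! `St_least` (job 1282 of helper192). -/

set_option autoImplicit false

namespace Pool.Agent.Y333.OG

theorem t_least : Pool.Agent.Y192.OG.St_least := fun N I => least0 N I

end Pool.Agent.Y333.OG
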